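import Pool.Agent.W544.KF.Defs2

set_option autoImplicit false

universe w v

namespace Pool.Agent.W264.KF

open Pool.Agent.W544.KF

section

variable {F : Type w} [Field F] {R : Type v} [Ring R] [Algebra F R]

/-- coefficients of `(x + c y)^n` -/
def cf (x y : R) : ℕ → ℕ → R
  | 0, 0 => 1
  | 0, _ + 1 => 0
  | n + 1, 0 => cf x y n 0 * x
  | n + 1, k + 1 => cf x y n (k + 1) * x + cf x y n k * y

theorem cf_zero (x y : R) (n : ℕ) : cf x y n 0 = x ^ n := by
  induction n with
  | zero => simp [cf]
  | succ n ih => rw [cf, ih, pow_succ]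

theorem cf_gt (x y : R) (n k : ℕ) (h : n < k) : cf x y n k = 0 := by
  induction n generalizing k with
  | zero =>
    cases k with
    | zero => omega
    | succ k => rfl
  | succ n ih =>
    cases k with
    | zero => omega
    | succ k => rw [cf, ih _ (by omega), ih _ (by omega)]; simp

theorem pow_cf (x y : R) (c : F) (n : ℕ) :
    (x + c • y) ^ n = ∑ k ∈ Finset.range (n + 1), c ^ k • cf x y n k := by
  induction n with
  | zero => simp [cf]
  | succ n ih =>
    rw [pow_succ, ih, Finset.sum_range_succ' _ (n + 1)]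
    have h1 : ∀ k, c ^ (k + 1) • cf x y (n + 1) (k + 1)
        = c ^ (k + 1) • (cf x y n (k + 1) * x) + c ^ (k + 1) • (cf x y n k * y) := by
      intro k; rw [cf, smul_add]
    simp only [h1, Finset.sum_add_distrib]
    rw [mul_add]
    have h2 : (∑ k ∈ Finset.range (n + 1), c ^ k • cf x y n k) * (c • y)
        = ∑ k ∈ Finset.range (n + 1), c ^ (k + 1) • (cf x y n k * y) := by
      rw [Finset.sum_mul]
      apply Finset.sum_congr rfl
      intro k _
      rw [smul_mul_assoc, mul_smul_comm, smul_smul, pow_succ]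
    have h3 : (∑ k ∈ Finset.range (n + 1), c ^ k • cf x y n k) * x
        = ∑ k ∈ Finset.range (n + 1), c ^ (k + 1) • (cf x y n (k + 1) * x)
          + c ^ 0 • cf x y (n + 1) 0 := by
      have h4 : ∑ k ∈ Finset.range (n + 1), c ^ k • cf x y n k
          = ∑ k ∈ Finset.range (n + 1 + 1), c ^ k • cf x y n k := by
        rw [Finset.sum_range_succ _ (n + 1), cf_gt x y n (n + 1) (by omega), smul_zero, add_zero]
      rw [h4, Finset.sum_range_succ' _ (n + 1), add_mul, Finset.sum_mul]
      congr 1
      · apply Finset.sum_congr rfl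
        intro k _
        rw [smul_mul_assoc]
      · rw [smul_mul_assoc, cf]
    rw [h2, h3]
    abel

/-- linearised power -/
def L (n : ℕ) (x y : R) : R := ∑ i ∈ Finset.range (n + 1), x ^ i * y * x ^ (n - i)

theorem cf_one (x y : R) (n : ℕ) : cf x y (n + 1) 1 = L n x y := by
  induction n with
  | zero => simp [cf, L]
  | succ n ih =>
    rw [cf, ih, cf_zero]
    unfold L
    rw [Finset.sum_range_succ _ (n + 1), Finset.sum_mul]
    congr 1
    · apply Finset.sum_congr rfl
      intro i hi
      have hi' : i ≤ n := by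
        have := Finset.mem_range.1 hi; omega
      have : n + 1 - i = (n - i) + 1 := by omega
      rw [this, pow_succ, mul_assoc]
    · simp

theorem lin [CharZero F] (I : Submodule F R) (x y : R) (n : ℕ)
    (h : ∀ c : F, (x + c • y) ^ (n + 1) ∈ I) : L n x y ∈ I := by
  rw [← cf_one, ← Submodule.Quotient.mk_eq_zero, ← Module.forall_dual_apply_eq_zero_iff F]
  intro φ
  let P : Polynomial F := ∑ k ∈ Finset.range (n + 1 + 1),
    Polynomial.C (φ (Submodule.Quotient.mk (cf x y (n + 1) k))) * Polynomial.X ^ k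
  have hP : P = 0 := by
    apply Polynomial.funext
    intro c
    have h1 := h c
    rw [pow_cf, ← Submodule.Quotient.mk_eq_zero] at h1
    have h2 := congrArg φ h1
    rw [map_zero, ← Submodule.mkQ_apply, map_sum, map_sum] at h2
    simp only [P, Polynomial.eval_finsetSum, Polynomial.eval_mul, Polynomial.eval_C,
      Polynomial.eval_pow, Polynomial.eval_X, Polynomial.eval_zero]
    rw [← h2]
    apply Finset.sum_congr rfl
    intro k _
    rw [map_smul, map_smul, smul_eq_mul, mul_comm, Submodule.mkQ_apply]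
  have h3 := congrArg (fun p => Polynomial.coeff p 1) hP
  simp only [P, Polynomial.finsetSum_coeff, Polynomial.coeff_C_mul, Polynomial.coeff_X_pow,
    Polynomial.coeff_zero] at h3
  rw [Finset.sum_eq_single 1] at h3
  · simpa using h3
  · intro b _ hb
    rw [if_neg (Ne.symm hb), mul_zero]
  · intro hn
    exfalso
    apply hn
    rw [Finset.mem_range]; omega

theorem ident (n : ℕ) (x y z : R) :
    ∑ j ∈ Finset.range (n + 1), L n x (z * y ^ j) * y ^ (n - j)
      = ∑ i ∈ Finset.range (n + 1), x ^ i * z * L n y (x ^ (n - i)) := by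
  unfold L
  simp only [Finset.sum_mul, Finset.mul_sum]
  rw [Finset.sum_comm]
  apply Finset.sum_congr rfl
  intro i _
  apply Finset.sum_congr rfl
  intro j _
  simp only [mul_assoc]

theorem mul_pow_mem (A : Submodule F R) (hA : ∀ a ∈ A, ∀ b ∈ A, a * b ∈ A) {z y : R}
    (hz : z ∈ A) (hy : y ∈ A) (j : ℕ) : z * y ^ j ∈ A := by
  induction j with
  | zero => simpa using hz
  | succ j ih => rw [pow_succ, ← mul_assoc]; exact hA _ ih _ hy

theorem pow_mul_mem (A : Submodule F R) (hA : ∀ a ∈ A, ∀ b ∈ A, a * b ∈ A) {z y : R}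
    (hz : z ∈ A) (hy : y ∈ A) (j : ℕ) : y ^ j * z ∈ A := by
  induction j with
  | zero => simpa using hz
  | succ j ih => rw [pow_succ', mul_assoc]; exact hA _ hy _ ih

theorem pow_mem (A : Submodule F R) (hA : ∀ a ∈ A, ∀ b ∈ A, a * b ∈ A) {y : R}
    (hy : y ∈ A) (j : ℕ) : y ^ (j + 1) ∈ A := by
  rw [pow_succ]
  exact pow_mul_mem A hA hy hy j

theorem key [CharZero F] (A I : Submodule F R) (hA : ∀ a ∈ A, ∀ b ∈ A, a * b ∈ A)
    (hAI : ∀ a ∈ A, ∀ b ∈ I, a * b ∈ I) (hIA : ∀ a ∈ I, ∀ b ∈ A, a * b ∈ I)
    (n : ℕ) (h : ∀ x ∈ A, x ^ (n + 1) ∈ I) (x y z : R) (hx : x ∈ A) (hy : y ∈ A) (hz : z ∈ A) :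
    x ^ n * z * y ^ n ∈ I := by
  have hL : ∀ x ∈ A, ∀ y ∈ A, L n x y ∈ I := fun x hx y hy =>
    lin I x y n (fun c => h _ (A.add_mem hx (A.smul_mem c hy)))
  have h1 : ∑ j ∈ Finset.range (n + 1), L n x (z * y ^ j) * y ^ (n - j) ∈ I := by
    apply Submodule.sum_mem
    intro j _
    have hl := hL x hx (z * y ^ j) (mul_pow_mem A hA hz hy j)
    rcases Nat.eq_zero_or_pos (n - j) with h0 | h0
    · rw [h0, pow_zero, mul_one]; exact hl
    · obtain ⟨t, ht⟩ := Nat.exists_eq_succ_of_ne_zero (by omega : n - j ≠ 0)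
      rw [ht]
      exact hIA _ hl _ (pow_mem A hA hy t)
  rw [ident, Finset.sum_range_succ] at h1
  have h2 : ∑ i ∈ Finset.range n, x ^ i * z * L n y (x ^ (n - i)) ∈ I := by
    apply Submodule.sum_mem
    intro i hi
    have hi' := Finset.mem_range.1 hi
    obtain ⟨t, ht⟩ := Nat.exists_eq_succ_of_ne_zero (by omega : n - i ≠ 0)
    rw [ht]
    exact hAI _ (pow_mul_mem A hA hz hx i) _ (hL y hy _ (pow_mem A hA hx t))
  have h3 : x ^ n * z * L n y (x ^ (n - n)) ∈ I := by
    have := I.sub_mem h1 h2
    rwa [add_sub_cancel_left] at this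
  have h4 : L n y (x ^ (n - n)) = ((n + 1 : ℕ) : F) • y ^ n := by
    unfold L
    rw [Nat.sub_self, pow_zero]
    have : ∀ i ∈ Finset.range (n + 1), y ^ i * 1 * y ^ (n - i) = y ^ n := by
      intro i hi
      have hi' := Finset.mem_range.1 hi
      rw [mul_one, ← pow_add]
      congr 1
      omega
    rw [Finset.sum_congr rfl this, Finset.sum_const, Finset.card_range, ← Nat.cast_smul_eq_nsmul F]
  rw [h4, mul_smul_comm] at h3
  have hne : ((n + 1 : ℕ) : F) ≠ 0 := Nat.cast_ne_zero.2 (by omega)
  have h5 := I.smul_mem (((n + 1 : ℕ) : F)⁻¹) h3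
  rwa [smul_smul, inv_mul_cancel₀ hne, one_smul] at h5

theorem main [CharZero F] (A : Submodule F R) (hA : A * A ≤ A) (n : ℕ) :
    ∀ I : Submodule F R, I ≤ A → A * I ≤ I → I * A ≤ I → (∀ x ∈ A, x ^ (n + 1) ∈ I) →
      A ^ (2 ^ (n + 1) - 1) ≤ I := by
  have hAe : ∀ a ∈ A, ∀ b ∈ A, a * b ∈ A := fun a ha b hb => hA (Submodule.mul_mem_mul ha hb)
  induction n with
  | zero =>
    intro I _ _ _ h
    have : (2 : ℕ) ^ (0 + 1) - 1 = 1 := by norm_num
    rw [this, pow_one]
    intro x hx
    have := h x hx
    simpa using this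
  | succ n ih =>
    intro I hI hAI hIA h
    set S : Submodule F R := Submodule.span F {r | ∃ x ∈ A, r = x ^ (n + 1)} with hS
    set U : Submodule F R := 1 ⊔ A with hU
    have hSA : S ≤ A := by
      rw [hS, Submodule.span_le]
      rintro r ⟨x, hx, rfl⟩
      exact pow_mem A hAe hx n
    have hAU : A * U ≤ A := by
      rw [hU, Submodule.mul_sup, mul_one]
      exact sup_le le_rfl hA
    have hUA : U * A ≤ A := by
      rw [hU, Submodule.sup_mul, one_mul]
      exact sup_le le_rfl hA
    have hAleU : A ≤ U := le_sup_right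
    have hoU : (1 : Submodule F R) ≤ U := le_sup_left
    have hUI : U * I ≤ I := by
      rw [hU, Submodule.sup_mul, one_mul]
      exact sup_le le_rfl hAI
    have hIU : I * U ≤ I := by
      rw [hU, Submodule.mul_sup, mul_one]
      exact sup_le le_rfl hIA
    have hSAS : S * A * S ≤ I := by
      have h1 : ∀ z ∈ A, ∀ s ∈ S, ∀ t ∈ S, s * z * t ∈ I := by
        intro z hz s hs t ht
        rw [hS] at hs ht
        induction hs using Submodule.span_induction with
        | mem s hs =>
          obtain ⟨x, hx, rfl⟩ := hs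
          induction ht using Submodule.span_induction with
          | mem t ht =>
            obtain ⟨y, hy, rfl⟩ := ht
            exact key A I hAe (fun a ha b hb => hAI (Submodule.mul_mem_mul ha hb))
              (fun a ha b hb => hIA (Submodule.mul_mem_mul ha hb)) (n + 1) h x y z hx hy hz
          | zero => simp
          | add a b _ _ ha hb => rw [mul_add]; exact I.add_mem ha hb
          | smul c a _ ha => rw [mul_smul_comm]; exact I.smul_mem c ha
        | zero => simp
        | add a b _ _ ha hb => rw [add_mul, add_mul]; exact I.add_mem ha hb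
        | smul c a _ ha => rw [smul_mul_assoc, smul_mul_assoc]; exact I.smul_mem c ha
      rw [Submodule.mul_le]
      intro m hm t ht
      induction hm using Submodule.mul_induction_on' with
      | mem_mul_mem s hs z hz => exact h1 z hz s hs t ht
      | add a _ b _ ha hb => rw [add_mul]; exact I.add_mem ha hb
    have hW : U * S * U ≤ A := by
      calc U * S * U ≤ U * A * U := by gcongr
        _ ≤ A * U := by gcongr
        _ ≤ A := hAU
    set W : Submodule F R := U * S * U with hWd
    have hI' : I ⊔ W ≤ A := sup_le hI hW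
    have hAI' : A * (I ⊔ W) ≤ I ⊔ W := by
      rw [Submodule.mul_sup]
      apply sup_le
      · exact hAI.trans le_sup_left
      · refine le_trans ?_ le_sup_right
        calc A * W = (A * U) * S * U := by rw [hWd]; simp only [mul_assoc]
          _ ≤ U * S * U := by
            have : A * U ≤ U := hAU.trans hAleU
            gcongr
    have hIA' : (I ⊔ W) * A ≤ I ⊔ W := by
      rw [Submodule.sup_mul]
      apply sup_le
      · exact hIA.trans le_sup_left
      · refine le_trans ?_ le_sup_right
        calc W * A = U * S * (U * A) := by rw [hWd]; simp only [mul_assoc]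
          _ ≤ U * S * U := by
            have : U * A ≤ U := hUA.trans hAleU
            gcongr
    have hmem : ∀ x ∈ A, x ^ (n + 1) ∈ I ⊔ W := by
      intro x hx
      have h1 : x ^ (n + 1) ∈ S := Submodule.subset_span ⟨x, hx, rfl⟩
      have h2 : S ≤ W := by
        calc S = 1 * S * 1 := by rw [one_mul, mul_one]
          _ ≤ U * S * U := by gcongr
      exact (h2.trans le_sup_right) h1
    have h5 := ih (I ⊔ W) hI' hAI' hIA' hmem
    have h6 : (I ⊔ W) * A * (I ⊔ W) ≤ I := by
      have hWAW : W * A * W ≤ I := by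
        calc W * A * W = U * (S * ((U * A) * U) * S) * U := by rw [hWd]; simp only [mul_assoc]
          _ ≤ U * (S * (A * U) * S) * U := by gcongr
          _ ≤ U * (S * A * S) * U := by gcongr
          _ ≤ U * I * U := by gcongr
          _ ≤ I * U := by gcongr
          _ ≤ I := hIU
      rw [Submodule.mul_sup]
      apply sup_le
      · calc (I ⊔ W) * A * I ≤ A * A * I := by gcongr
          _ ≤ A * I := by gcongr
          _ ≤ I := hAI
      · rw [Submodule.sup_mul, Submodule.sup_mul]
        apply sup_le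
        · calc I * A * W ≤ I * A * A := by gcongr
            _ ≤ I * A := by gcongr
            _ ≤ I := hIA
        · exact hWAW
    have h7 : 2 ^ (n + 1 + 1) - 1 = (2 ^ (n + 1) - 1) + 1 + (2 ^ (n + 1) - 1) := by
      have : 1 ≤ 2 ^ (n + 1) := Nat.one_le_two_pow
      rw [pow_succ 2 (n + 1)]
      omega
    rw [h7, pow_add, pow_succ]
    calc A ^ (2 ^ (n + 1) - 1) * A * A ^ (2 ^ (n + 1) - 1) ≤ (I ⊔ W) * A * (I ⊔ W) := by gcongr
      _ ≤ I := h6

end

theorem nh : S_NH.{w, v} := by
  intro F _ _ R _ _ A hA n h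
  refine ⟨2 ^ (n + 1) - 1, ?_⟩
  rw [eq_bot_iff]
  apply main A hA n ⊥ bot_le
  · simp
  · simp
  · intro x hx
    rw [h x hx]
    exact Submodule.zero_mem _

end Pool.Agent.W264.KF

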